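import Pool.Agent.EX54.P2B
import Pool.Agent.R6.Conn
import Pool.Agent.EX18.StarM

/-!
Matroids all of whose circuits have at least `rank - 2` elements: triples of bases with the same content are connected.
-/

set_option autoImplicit false

namespace Pool.Agent.EX54

open Finset Pool.Agent.DT3 Pool.Agent.CF98 Pool.Agent.WT59 Pool.Agent.WG59 Pool.Agent.EX59 Pool.Agent.SA65 Pool.Agent.EX84
  Pool.Agent.EX91 Pool.Agent.R6

/-- In every strict system with `CP 2` all good bases are in one class. -/
theorem swp_cp2 {α : Type*} [DecidableEq α] : SWP (CP (α := α) 2) := by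
  classical
  intro E r f Q A B hE hs hc hQ hA hB qA
  rcases Nat.lt_or_ge f 7 with hf | hf
  · exact sw_rank6 hE hs (by omega) hQ hA hB qA
  by_contra qB
  have hr := hE.rk
  have hrE := hE.rank
  rcases na_of2 hE hQ hA hB qA qB with ⟨Z, hZ, hZc, ⟨b, gb, hb, qb⟩, ⟨b', gb', hb', qb'⟩⟩ |
    ⟨F, M, S, K1, K2, hN, -, hM⟩
  swap
  · exact cp_nap_lt hE hc hN hM
  have hN := napZ hE hQ hZ hZc gb hb gb' hb' qb qb'
  have hF4 := cp_nap_eq hE hc hN
  have hok : Ok r r E Z := ok_sub (gd_ok hE gb) hb
  have hFt : Ti r r Z (FF r r E Z) := FF_ti hr hr hok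
  unfold Ti at hFt
  have hFE : FF r r E Z ⊆ E := FF_sub
  obtain ⟨x, hx⟩ := hN.n1
  obtain ⟨y, hy⟩ := hN.n2
  have hna := na_of_nap hr (by omega) hN hx hy
  -- split the tight set
  obtain ⟨BF, hBF, b1, b2⟩ := two_parts (D := FF r r E Z \ Z) (f := r (FF r r E Z)) hr (by omega)
    (by
      intro X hX
      have h1 := hok X ((hX.trans sdiff_subset).trans hFE)
      have e1 : X \ Z = X := by
        rw [Finset.sdiff_eq_self_iff_disjoint, Finset.disjoint_left]
        intro z hz hz'
        exact (mem_sdiff.1 (hX hz)).2 hz'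
      rw [e1] at h1
      omega)
    (fun X hX => hr.mono _ _ (hX.trans sdiff_subset))
  -- a red triple
  have ge : ∀ X : Finset α, r (FF r r E Z) ≤ r (X ∪ FF r r E Z) := fun X => hr.mono _ _ subset_union_right
  have hrig : Rig (cr r E Z) (SS r E Z) 4 := by
    refine ⟨by rw [hna.c7], fun A hA hn => ?_⟩
    have t1 := hN.rig A hA hn
    have t2 := ge A
    show A.card + 1 ≤ 2 * (r (A ∪ FF r r E Z) - r (FF r r E Z))
    omega
  obtain ⟨J, hJ, hJx⟩ := hl_exists hna.rk hrig hna.lx (by
    have t1 := hna.r4 (SS r E Z) (Subset.refl _)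
    have t2 := hna.rk.mono (insert x (SS r E Z)) (insert x (insert y (SS r E Z)))
      (insert_subset_insert x (subset_insert y _))
    obtain ⟨A, hA, hAc⟩ := Finset.exists_subset_card_eq (show 5 ≤ (SS r E Z).card by rw [hna.c7]; norm_num)
    have t3 := hna.t5 A hA hAc
    have t4 := hna.rk.mono A _ (hA.trans (subset_insert x _))
    omega)
  obtain ⟨P, hP, hPL⟩ := hna.four (J := J) ⟨hJ.sub, by have := hJ.card; omega, hJ.co, hJx⟩
  obtain ⟨L, hL⟩ := card_pos.1 (show 0 < P.card by omega)
  exact Cg.false (JF := (FF r r E Z \ Z) \ BF) (BF := BF) (x := x) (y := y)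
    ⟨hE, hQ, hZ, hZc, hF4, sdiff_union_of_subset hBF, sdiff_disjoint, b2.1, b1.1, b2.2, b1.2, hx, hy, hna⟩
    hs hc hf hN (hPL L hL)

theorem cp_rr {α : Type*} [DecidableEq α] {M : Matroid α} {j : ℕ}
    (h : ∀ C : Set α, M.IsCircuit C → M.eRank ≤ C.encard + j) (E : Finset (α × ℕ)) : CP j E (rr M) := by
  intro C hC h2 hs hd
  have hk := rkFn_rank M
  have simple : ∀ x y : α × ℕ, rr M {x, y} = 2 → x.1 ≠ y.1 := by
    intro x y hxy h
    rw [EX18.rr_apply, image_insert, image_singleton, h, insert_eq_of_mem (mem_singleton_self _)] at hxy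
    have h1 := hk.le_card {y.1}
    rw [card_singleton] at h1
    omega
  have hcard : (C.image Prod.fst).card = C.card := by
    apply card_image_of_injOn
    intro x hx y hy hxy
    by_contra hne
    exact simple x y (hs x hx y hy hne) hxy
  have hground : ((C.image Prod.fst : Finset α) : Set α) ⊆ M.E := by
    intro u hu
    rw [mem_coe, mem_image] at hu
    obtain ⟨x, hx, rfl⟩ := hu
    obtain ⟨y, hy, hyx⟩ := exists_mem_ne (show 1 < C.card by omega) x
    have h3 := hs x hx y hy hyx.symm
    have h4 : rkFn M {x.1, y.1} = ({x.1, y.1} : Finset α).card := by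
      rw [EX18.rr_apply, image_insert, image_singleton] at h3
      rw [h3, card_pair (simple x y (hs x hx y hy hyx.symm))]
    rw [← EX18.rk_indep] at h4
    exact h4.subset_ground (by simp)
  have hdep : M.Dep ((C.image Prod.fst : Finset α) : Set α) := by
    rw [← Matroid.not_indep_iff hground, EX18.rk_indep, hcard]
    rw [EX18.rr_apply] at hd
    omega
  obtain ⟨K, hK, hKc⟩ := hdep.exists_isCircuit_subset
  have h5 := h K hKc
  have h6 : M.eRank ≤ ((C.card + j : ℕ) : ℕ∞) := by
    refine h5.trans ?_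
    rw [Nat.cast_add]
    gcongr
    rw [← hcard, ← Set.encard_coe_eq_coe_finsetCard]
    exact Set.encard_le_encard hK
  have h7 : ((rr M E : ℕ) : ℕ∞) ≤ M.eRank := by
    rw [EX18.rr_apply, EX18.rk_coe]
    exact M.eRk_le_eRank _
  exact_mod_cast h7.trans h6

/-- Triples of bases with the same content are connected in every matroid all of whose circuits have at least `rank - 2` elements. -/
theorem tconn_circ {α : Type*} [DecidableEq α] {M : Matroid α}
    (h : ∀ C : Set α, M.IsCircuit C → M.eRank ≤ C.encard + 2) : TConn M :=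
  connP (her_cp 2) swp_cp2 M (fun E => cp_rr (j := 2) (by exact_mod_cast h) E)

end Pool.Agent.EX54
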