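import Pool.Agent.EX54.D1
import Pool.Agent.SA65.Defs

/-!
LEMMA D^1 (note 3100 of MP_e6151a_ag) in the relative form: completely non-adjacent sets `K1`, `K2` in `M / F` span a flat of corank at
least two.
-/

set_option autoImplicit false

namespace Pool.Agent.EX54

open Finset Pool.Agent.DT3 Pool.Agent.CF98 Pool.Agent.WT59 Pool.Agent.EX84 Pool.Agent.SA65

variable {α : Type*} [DecidableEq α] {r : Finset α → ℕ} {E S F M K1 K2 : Finset α} {g : ℕ}

/-- The relative form of `lemD1`. -/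
theorem adjF1 (h : RankFn r) (hn1 : K1.Nonempty) (hn2 : K2.Nonempty)
    (hl : ∀ x ∈ K1 ∪ K2, r (insert x F) ≠ r F)
    (hc : S.card + 1 + 2 * r F = 2 * g)
    (hs : ∀ A ⊆ S, A.Nonempty → A.card + 1 + 2 * r F ≤ 2 * r (A ∪ F))
    (hrk : ∀ X ⊆ S ∪ F ∪ (K1 ∪ K2), r X ≤ g) (hco : g ≤ r (F ∪ (K1 ∪ K2)) + 1) :
    ∃ J ⊆ S, J.card + 1 + r F = g ∧ r (J ∪ F) + 1 = g ∧ r ((S \ J) ∪ F) = g ∧
      (∃ x ∈ K1, r (insert x (J ∪ F)) = g) ∧ (∃ x ∈ K2, r (insert x (J ∪ F)) = g) := by
  have hFr : ∀ X : Finset α, r F ≤ r (X ∪ F) := fun X => h.mono _ _ subset_union_right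
  have hins : ∀ (x : α) (X : Finset α), insert x X ∪ F = insert x (X ∪ F) := fun x X => insert_union x X F
  have hgF : r F ≤ g := hrk F (fun x hx => mem_union_left _ (mem_union_right _ hx))
  have hl' : ∀ x ∈ K1 ∪ K2, 0 < r ({x} ∪ F) - r F := by
    intro x hx
    have h1 := rk_ins_ne h (hl x hx)
    rw [← insert_eq]
    omega
  have hS' : Rig (fun X => r (X ∪ F) - r F) S (g - r F) := by
    refine ⟨by omega, ?_⟩
    intro A hA hAn
    have h1 := hs A hA hAn
    have h2 := hFr A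
    show A.card + 1 ≤ 2 * (r (A ∪ F) - r F)
    omega
  obtain ⟨J, hJ, ⟨x, hx, hx'⟩, ⟨y, hy, hy'⟩⟩ := lemD1 (r := fun X => r (X ∪ F) - r F) (contr_rank h F) hS'
    (fun x hx => hl' x (mem_union_left _ hx)) (fun x hx => hl' x (mem_union_right _ hx)) hn1 hn2
    (by
      show g - r F ≤ (r (K1 ∪ K2 ∪ F) - r F) + 1
      rw [union_comm (K1 ∪ K2) F]
      omega)
    (by
      intro X hX
      show r (X ∪ F) - r F ≤ g - r F
      have h1 := hrk (X ∪ F) (union_subset (fun x hx => by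
        rcases mem_union.1 (hX hx) with h2 | h2
        · exact mem_union_left _ (mem_union_left _ h2)
        · exact mem_union_right _ h2) (fun x hx => mem_union_left _ (mem_union_right _ hx)))
      omega)
  have a1 := hJ.card
  have a2 : r (J ∪ F) - r F + 1 = g - r F := hJ.rk
  have a3 : r ((S \ J) ∪ F) - r F = g - r F := hJ.co
  have a4 : r (insert x J ∪ F) - r F = g - r F := hx'
  have a5 : r (insert y J ∪ F) - r F = g - r F := hy'
  rw [hins] at a4 a5
  have b1 := hFr J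
  have b2 := hFr (S \ J)
  have b3 := h.mono F (insert x (J ∪ F)) (subset_union_right.trans (subset_insert _ _))
  have b4 := h.mono F (insert y (J ∪ F)) (subset_union_right.trans (subset_insert _ _))
  exact ⟨J, hJ.sub, by omega, by omega, by omega, ⟨x, hx, by omega⟩, ⟨y, hy, by omega⟩⟩

/-- Completely non-adjacent sets span a flat of corank at least two. -/
theorem nap_corank (h : RankFn r) (hN : NAP r E F M S K1 K2) : r (F ∪ (K1 ∪ K2)) + 2 ≤ r M := by
  by_contra hcon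
  have hsub : S ∪ F ∪ (K1 ∪ K2) ⊆ M :=
    union_subset (union_subset hN.SM hN.FM) (union_subset hN.K1M hN.K2M)
  obtain ⟨J, hJ, h1, -, h3, ⟨x, hx, hx'⟩, ⟨y, hy, hy'⟩⟩ := adjF1 h hN.n1 hN.n2 hN.nl hN.card hN.rig
    (fun X hX => h.mono X M (hX.trans hsub)) (by omega)
  rcases hN.na J hJ h1 h3 with h4 | h4
  · exact h4 x hx hx'
  · exact h4 y hy hy'

end Pool.Agent.EX54
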