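import Pool.Agent.EX84.Dl

/-!
LEMMA D^1 (note 3100 of MP_e6151a_ag): two sets of non-loops which span a hyperplane are adjacent.

`S` is rigid of rank `f` (see `EX84.Rig`, `EX84.Hl`), `K = K1 ∪ K2` has rank `f - 1`, and `no` : every `J` spans `K1` or `K2`.  The
contradiction is `Cx.false`; the lemma is `lemD1`.
-/

set_option autoImplicit false

namespace Pool.Agent.EX54

open Finset Pool.Agent.DT3 Pool.Agent.CF98 Pool.Agent.WT59 Pool.Agent.EX84

variable {α : Type*} [DecidableEq α] {r : Finset α → ℕ} {S J Q B X Y W K K1 K2 : Finset α} {f : ℕ} {x y e z b : α}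

/-- `K` is spanned by `X`. -/
def Sn (r : Finset α → ℕ) (X K : Finset α) : Prop := ∀ x ∈ K, r (insert x X) = r X

theorem sn_mono (h : RankFn r) (hXY : X ⊆ Y) (hK : Sn r X K) : Sn r Y K := fun x hx => cl_mono h hXY (hK x hx)

theorem sn_union (h : RankFn r) (hK : Sn r X K) : r (X ∪ K) = r X := rk_union_eq h hK

theorem inter' (h : RankFn r) (hB : r B = B.card) (hW : W ⊆ B) (hx : r (insert x B) = r B)
    (hq : ∀ q ∈ W, r (insert x (B.erase q)) = r (B.erase q)) : r (insert x (B \ W)) = r (B \ W) := by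
  by_cases hxB : x ∈ B
  · have hxW : x ∉ W := by
      intro hxW
      have h3 := hq x hxW
      rw [insert_erase hxB] at h3
      have h4 := ind_sub h hB (erase_subset x B)
      have h5 := card_erase_add_one hxB
      omega
    rw [insert_eq_of_mem (mem_sdiff.2 ⟨hxB, hxW⟩)]
  · exact ins_inter h hB hxB hW hx hq

theorem exch (h : RankFn r) (hb : r (insert b X) ≠ r X) (hbe : r (insert b (insert e X)) = r (insert e X)) :
    r (insert e (insert b X)) = r (insert b X) := by
  have h1 := rk_ins_ne h hb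
  have h2 := h.insert_le e X
  have h3 := h.mono (insert b X) (insert e (insert b X)) (subset_insert _ _)
  rw [insert_comm] at hbe
  omega

/-- The setting: `K1 ∪ K2` spans a hyperplane and there is no adjacent pair. -/
structure Cx (r : Finset α → ℕ) (S : Finset α) (f : ℕ) (K K1 K2 : Finset α) : Prop where
  h : RankFn r
  hS : Rig r S f
  un : K1 ∪ K2 = K
  sp : r K + 1 = f
  rk : ∀ X ⊆ S ∪ K, r X ≤ f
  no : ∀ J, Hl r S f J → Sn r J K1 ∨ Sn r J K2

theorem Cx.symm (c : Cx r S f K K1 K2) : Cx r S f K K2 K1 :=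
  ⟨c.h, c.hS, by rw [union_comm]; exact c.un, c.sp, c.rk, fun J hJ => (c.no J hJ).symm⟩

theorem Cx.s1 (c : Cx r S f K K1 K2) : K1 ⊆ K := by rw [← c.un]; exact subset_union_left

theorem Cx.s2 (c : Cx r S f K K1 K2) : K2 ⊆ K := by rw [← c.un]; exact subset_union_right

theorem Cx.full (c : Cx r S f K K1 K2) (hB : B ⊆ S) (hr : r B = f) (hx : x ∈ K) : r (insert x B) = r B := by
  have h3 := c.h.mono B (insert x B) (subset_insert x B)
  have h4 := c.rk (insert x B) (insert_subset (mem_union_right _ hx) (hB.trans subset_union_left))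
  omega

/-- What a blue neighbour of a set spanning `K2` says. -/
structure Loc (r : Finset α → ℕ) (S : Finset α) (f : ℕ) (K K1 K2 J : Finset α) (e : α) : Prop where
  a : ∀ z ∈ S \ J, r (insert z K) ≠ r K →
    r (insert z J) = f ∧ Sn r ((S \ J).erase z) K1 ∧ ¬ Sn r ((S \ J).erase z) K2
  b : Sn r ((S \ J).filter fun z => r (insert z K) = r K) K1
  d : ∀ z ∈ S \ J, r (insert z K) = r K → r (insert z J) = f → Sn r ((S \ J).erase z) K2
  ee : ((S \ J).filter fun z => r (insert z J) = r J).card + ((S \ J).filter fun z => r (insert z K) ≠ r K).card ≤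
    r (((S \ J).filter fun z => r (insert z J) = r J) ∪ K2) + 1
  ff : 2 ≤ ((S \ J).filter fun z => r (insert z K) ≠ r K).card
  e : r (insert e K) ≠ r K

theorem loc (c : Cx r S f K K1 K2) (hP : Hl r S f J) (hP2 : Sn r J K2) (he : e ∈ S \ J)
    (her : r (insert e J) = f) (hb2 : ¬ Sn r ((S \ J).erase e) K2) : Loc r S f K K1 K2 J e := by
  classical
  have h := c.h
  have hS := c.hS
  obtain ⟨B, hBd⟩ : ∃ B, B = S \ J := ⟨_, rfl⟩
  rw [← hBd] at he hb2
  have hBS : B ⊆ S := by rw [hBd]; exact sdiff_subset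
  have hBc : B.card = f := by rw [hBd]; exact hP.co_card hS
  have hBr : r B = f := by rw [hBd]; exact hP.co
  have hBi : r B = B.card := by rw [hBc, hBr]
  obtain ⟨D1, hD1⟩ : ∃ D : Finset α, D = B.filter fun z => r (insert z J) = f ∧ Sn r (B.erase z) K1 := ⟨_, rfl⟩
  obtain ⟨D2, hD2⟩ : ∃ D : Finset α, D = B.filter fun z => r (insert z J) = f ∧ Sn r (B.erase z) K2 := ⟨_, rfl⟩
  have hmv : ∀ z ∈ B, r (insert z J) = f → Hl r S f (B.erase z) := fun z hz hz' => by
    rw [hBd] at hz ⊢
    exact (hP.move h hS hz hz').1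
  have hcov : ∀ z ∈ B, r (insert z J) = f → z ∈ D1 ∨ z ∈ D2 := by
    intro z hz hz'
    rcases c.no _ (hmv z hz hz') with h3 | h3
    · left; rw [hD1, mem_filter]; exact ⟨hz, hz', h3⟩
    · right; rw [hD2, mem_filter]; exact ⟨hz, hz', h3⟩
  have hD1B : D1 ⊆ B := by rw [hD1]; exact filter_subset _ _
  have hD2B : D2 ⊆ B := by rw [hD2]; exact filter_subset _ _
  have k1 : Sn r (B \ D1) K1 := fun x hx => by
    refine inter' h hBi hD1B (c.full hBS hBr (c.s1 hx)) (fun q hq => ?_)
    rw [hD1, mem_filter] at hq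
    exact hq.2.2 x hx
  have k2 : Sn r (B \ D2) K2 := fun x hx => by
    refine inter' h hBi hD2B (c.full hBS hBr (c.s2 hx)) (fun q hq => ?_)
    rw [hD2, mem_filter] at hq
    exact hq.2.2 x hx
  have he2 : e ∉ D2 := by
    intro h1
    rw [hD2, mem_filter] at h1
    exact hb2 h1.2.2
  have he1 : e ∈ D1 := by
    rcases hcov e he her with h1 | h1
    · exact h1
    · exact absurd h1 he2
  obtain ⟨L, hL⟩ : ∃ L : Finset α, L = B.filter fun z => r (insert z J) = r J := ⟨_, rfl⟩
  have hLB : L ⊆ B := by rw [hL]; exact filter_subset _ _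
  have hLmem : ∀ z, z ∈ L ↔ z ∈ B ∧ z ∉ D1 ∧ z ∉ D2 := by
    intro z
    rw [hL, mem_filter]
    constructor
    · rintro ⟨h1, h2⟩
      refine ⟨h1, ?_, ?_⟩
      · intro h3
        rw [hD1, mem_filter] at h3
        exact not_full hP h2 h3.2.1
      · intro h3
        rw [hD2, mem_filter] at h3
        exact not_full hP h2 h3.2.1
    · rintro ⟨h1, h2, h3⟩
      refine ⟨h1, ?_⟩
      by_contra hc
      rcases hcov z h1 (full_of_ne h hP hc) with h4 | h4
      · exact h2 h4
      · exact h3 h4
  -- ranks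
  have n1 : r ((B \ D1) ∪ K1) = r (B \ D1) := sn_union h k1
  have n2 : r ((B \ D2) ∪ K2) = r (B \ D2) := sn_union h k2
  have i1 : r (B \ D1) = (B \ D1).card := ind_sub h hBi sdiff_subset
  have i2 : r (B \ D2) = (B \ D2).card := ind_sub h hBi sdiff_subset
  have i3 : r L = L.card := ind_sub h hBi hLB
  have hLD1 : L ⊆ B \ D1 := fun z hz => mem_sdiff.2 ⟨hLB hz, ((hLmem z).1 hz).2.1⟩
  have hLD2 : L ⊆ B \ D2 := fun z hz => mem_sdiff.2 ⟨hLB hz, ((hLmem z).1 hz).2.2⟩
  have hLP : Sn r J (L ∪ K2) := by
    intro z hz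
    rcases mem_union.1 hz with hz | hz
    · rw [hL, mem_filter] at hz
      exact hz.2
    · exact hP2 z hz
  -- nothing outside the span of `J` is spanned by `L ∪ K2`
  have hnot : ∀ z, r (insert z J) = f → r (insert z (L ∪ K2)) ≠ r (L ∪ K2) := by
    intro z hz t1
    have t4 : r (J ∪ (L ∪ K2)) = r J := sn_union h hLP
    have t5 := h.mono_insert t1 (subset_union_right (s₁ := J) (s₂ := L ∪ K2))
    have t6 := h.mono (insert z J) (insert z (J ∪ (L ∪ K2)))
      (insert_subset_insert _ subset_union_left)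
    have t7 := hP.rk
    omega
  have u1 : L ∪ K1 ⊆ (B \ D1) ∪ K1 := union_subset_union hLD1 (Subset.refl _)
  have u2 : L ∪ K2 ⊆ (B \ D2) ∪ K2 := union_subset_union hLD2 (Subset.refl _)
  have a1 := h.mono _ _ u1
  have a2 : r (L ∪ K2) + 1 ≤ (B \ D2).card := by
    have t1 := rk_ins_ne h (hnot e her)
    have t2 := h.mono (insert e (L ∪ K2)) ((B \ D2) ∪ K2) (insert_subset
      (mem_union_left _ (mem_sdiff.2 ⟨he, he2⟩)) u2)
    omega
  have s1 := h.submod (L ∪ K1) (L ∪ K2)
  have s2 := h.mono L ((L ∪ K1) ∩ (L ∪ K2))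
    (fun z hz => mem_inter.2 ⟨mem_union_left _ hz, mem_union_left _ hz⟩)
  have e12 : L ∪ K1 ∪ (L ∪ K2) = L ∪ K := by
    rw [← c.un]
    ext z
    simp only [mem_union]
    tauto
  rw [e12] at s1
  have s3 := h.mono K (L ∪ K) subset_union_right
  have c1 : (B \ D1) ∩ (B \ D2) = L := by
    ext z
    rw [hLmem, mem_inter, mem_sdiff, mem_sdiff]
    tauto
  have c2 : (B \ D1) ∪ (B \ D2) = B \ (D1 ∩ D2) := by
    ext z
    simp only [mem_union, mem_sdiff, mem_inter]
    tauto
  have c3 := card_union_add_card_inter (B \ D1) (B \ D2)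
  rw [c1, c2] at c3
  have c4 := card_sdiff_add_card_eq_card ((inter_subset_left (s₁ := D1) (s₂ := D2)).trans hD1B)
  have csp := c.sp
  have hdis : (D1 ∩ D2).card = 0 := by omega
  have b1 : r (L ∪ K1) = (B \ D1).card := by omega
  have b2 : r (L ∪ K2) + 1 = (B \ D2).card := by omega
  have b3 : r (L ∪ K) = r K := by omega
  have hdis' : ∀ z ∈ D1, z ∉ D2 := by
    intro z hz hz'
    rw [card_eq_zero] at hdis
    have : z ∈ D1 ∩ D2 := mem_inter.2 ⟨hz, hz'⟩
    rw [hdis] at this
    exact absurd this (notMem_empty z)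
  -- everything outside `D1` is in the hyperplane
  have hH : ∀ z ∈ B, z ∉ D1 → r (insert z K) = r K := by
    intro z hz hz'
    have t1 : r (insert z (L ∪ K1)) = r (L ∪ K1) := by
      have t2 := h.mono _ _ (subset_insert z (L ∪ K1))
      have t3 := h.mono (insert z (L ∪ K1)) ((B \ D1) ∪ K1) (insert_subset
        (mem_union_left _ (mem_sdiff.2 ⟨hz, hz'⟩)) u1)
      omega
    have t4 := h.mono_insert t1 (union_subset_union (Subset.refl L) c.s1)
    have t5 := h.mono (insert z K) (insert z (L ∪ K)) (insert_subset_insert _ subset_union_right)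
    have t6 := h.mono K (insert z K) (subset_insert _ _)
    omega
  have hA : ∀ z ∈ B, r (insert z K) ≠ r K → z ∈ D1 := by
    intro z hz hz'
    by_contra hc
    exact hz' (hH z hz hc)
  -- some element of `B` is outside the hyperplane
  obtain ⟨w, hw, hwK⟩ : ∃ w ∈ B, r (insert w K) ≠ r K := by
    by_contra hcon
    push Not at hcon
    have t1 : r (K ∪ B) = r K := rk_union_eq h hcon
    have t2 := h.mono B (K ∪ B) subset_union_right
    omega
  have hD : ∀ z ∈ D1, r (insert z K) ≠ r K := by
    intro z hz hzK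
    have hz' := hz
    rw [hD1, mem_filter] at hz'
    have t0 := rk_ins_ne h (hnot z hz'.2.1)
    have hLK2 : L ∪ K2 ⊆ L ∪ K := union_subset_union (Subset.refl L) c.s2
    have t1 : r (insert w (insert z (L ∪ K2))) = r (insert z (L ∪ K2)) := by
      have t2 := h.mono _ _ (subset_insert w (insert z (L ∪ K2)))
      have hwD := hA w hw hwK
      have t3 := h.mono (insert w (insert z (L ∪ K2))) ((B \ D2) ∪ K2) (insert_subset
        (mem_union_left _ (mem_sdiff.2 ⟨hw, hdis' w hwD⟩)) (insert_subset
        (mem_union_left _ (mem_sdiff.2 ⟨hz'.1, hdis' z hz⟩)) u2))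
      omega
    have t4 := h.mono_insert t1 (insert_subset_insert z hLK2)
    have t5 : r (insert z (L ∪ K)) = r (L ∪ K) := h.mono_insert hzK subset_union_right
    have t6 := h.mono (insert w K) (insert w (insert z (L ∪ K)))
      (insert_subset_insert _ (subset_union_right.trans (subset_insert _ _)))
    have t7 := h.mono K (insert w K) (subset_insert _ _)
    omega
  have hD1O : D1 = B.filter fun z => r (insert z K) ≠ r K := by
    ext z
    rw [mem_filter]
    exact ⟨fun hz => ⟨hD1B hz, hD z hz⟩, fun hz => hA z hz.1 hz.2⟩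
  have hBD2 : (B \ D2).card = L.card + D1.card := by
    have t1 := card_sdiff_add_card_eq_card hD1B
    have t2 := card_sdiff_add_card_eq_card hD2B
    omega
  refine ⟨?_, ?_, ?_, ?_, ?_, ?_⟩
  all_goals try rw [← hBd]
  · intro z hz hzK
    have t1 := hA z hz hzK
    have t2 := hdis' z t1
    rw [hD1, mem_filter] at t1
    refine ⟨t1.2.1, t1.2.2, fun t3 => t2 ?_⟩
    rw [hD2, mem_filter]
    exact ⟨hz, t1.2.1, t3⟩
  · refine sn_mono h ?_ k1
    intro z hz
    rw [mem_sdiff] at hz
    rw [mem_filter]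
    exact ⟨hz.1, hH z hz.1 hz.2⟩
  · intro z hz hzK hzJ
    rcases hcov z hz hzJ with t1 | t1
    · exact absurd hzK (hD z t1)
    · rw [hD2, mem_filter] at t1
      exact t1.2.2
  · rw [← hD1O, ← hL]
    omega
  · rw [← hD1O]
    have t1 : 0 < D1.card := card_pos.2 ⟨e, he1⟩
    by_contra hc
    have t2 : r (L ∪ K2) = L.card := by omega
    refine hb2 (sn_mono h (X := L) ?_ ?_)
    · intro z hz
      refine mem_erase.2 ⟨?_, hLB hz⟩
      rintro rfl
      exact ((hLmem z).1 hz).2.1 he1
    · intro x hx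
      have t3 := h.mono (insert x L) (L ∪ K2) (insert_subset (mem_union_right _ hx) subset_union_left)
      have t4 := h.mono L (insert x L) (subset_insert _ _)
      omega
  · exact hD e he1

theorem mem_cl_of (c : Cx r S f K K1 K2) (hP1 : Sn r J K1) (hP2 : Sn r J K2) (hz : r (insert z K) = r K) :
    r (insert z J) = r J := by
  have h := c.h
  have hK : Sn r J K := by
    intro x hx
    rw [← c.un] at hx
    rcases mem_union.1 hx with hx | hx
    · exact hP1 x hx
    · exact hP2 x hx
  have t1 := sn_union h hK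
  have t2 : r (insert z (J ∪ K)) = r (J ∪ K) := h.mono_insert hz subset_union_right
  have t3 := h.mono (insert z J) (insert z (J ∪ K)) (insert_subset_insert _ subset_union_left)
  have t4 := h.mono J (insert z J) (subset_insert _ _)
  omega

/-- There is an exchange between a `J` spanning only `K2` and a `J` spanning only `K1`. -/
theorem glob (c : Cx r S f K K1 K2) (hl1 : ∀ x ∈ K1, 0 < r {x}) (hl2 : ∀ x ∈ K2, 0 < r {x})
    (hn1 : K1.Nonempty) (hn2 : K2.Nonempty) (hne : ∃ J, Hl r S f J) :
    ∃ J e, Hl r S f J ∧ e ∈ S \ J ∧ r (insert e J) = f ∧ Sn r J K2 ∧ ¬ Sn r J K1 ∧ ¬ Sn r ((S \ J).erase e) K2 := by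
  classical
  by_contra hcon
  have hno : ∀ J e, Hl r S f J → e ∈ S \ J → r (insert e J) = f → Sn r J K2 → ¬ Sn r J K1 →
      Sn r ((S \ J).erase e) K2 := by
    intro J e h1 h2 h3 h4 h5
    by_contra h6
    exact hcon ⟨J, e, h1, h2, h3, h4, h5, h6⟩
  have h := c.h
  have hS := c.hS
  obtain ⟨x, hx⟩ := hn1
  obtain ⟨y, hy⟩ := hn2
  obtain ⟨J0, hJ0⟩ := hne
  obtain ⟨J, -, hJ, hxJ⟩ := tss h hS hJ0 (hl1 x hx)
  have hJ1 : ¬ Sn r J K1 := fun h1 => not_full hJ (h1 x hx) hxJ
  have inv : ∀ Q, Rc r S f J Q → Sn r Q K2 ∧ (Sn r Q K1 → ∀ e ∈ S \ Q, r (insert e Q) = f →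
      Sn r ((S \ Q).erase e) K2) := by
    intro Q hQ
    induction hQ with
    | refl =>
      refine ⟨?_, fun h1 => absurd h1 hJ1⟩
      rcases c.no J hJ with h1 | h1
      · exact absurd h1 hJ1
      · exact h1
    | @tail P R h1 h2 ih =>
      have hP : Hl r S f P := Rc.hl h hS hJ h1
      obtain ⟨e, he, hr, rfl⟩ := h2
      obtain ⟨h3, h4⟩ := hP.move h hS he hr
      have he' := mem_sdiff.1 he
      have hR2 : Sn r ((S \ P).erase e) K2 := by
        by_cases h5 : Sn r P K1
        · exact ih.2 h5 e he hr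
        · exact hno P e hP he hr ih.1 h5
      refine ⟨hR2, fun hR1 e' he1 he2 => ?_⟩
      by_contra hb
      have hloc := loc c h3 hR2 he1 he2 hb
      have heR : r (insert e ((S \ P).erase e)) = f := by
        rw [insert_erase he]; exact hP.co
      have heK : r (insert e K) ≠ r K := by
        intro h5
        exact not_full h3 (mem_cl_of c hR1 hR2 h5) heR
      have h6 := (hloc.a e (by rw [h4]; exact mem_insert_self e P) heK).2.2
      rw [h4, erase_insert he'.2] at h6
      exact h6 ih.1
  obtain ⟨Q, hQ, hQl, hr⟩ := tss h hS hJ (hl2 y hy)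
  exact not_full hQl ((inv Q hQ).1 y hy) hr

/-- LEMMA D^1: the contradiction. -/
theorem Cx.false (c : Cx r S f K K1 K2) (hl1 : ∀ x ∈ K1, 0 < r {x}) (hl2 : ∀ x ∈ K2, 0 < r {x})
    (hn1 : K1.Nonempty) (hn2 : K2.Nonempty) (hne : ∃ J, Hl r S f J) : False := by
  classical
  obtain ⟨J, e, hJ, he, her, hJ2, hJ1, hb⟩ := glob c hl1 hl2 hn1 hn2 hne
  have h := c.h
  have hS := c.hS
  have hloc := loc c hJ hJ2 he her hb
  have he' := mem_sdiff.1 he
  obtain ⟨Q, hQd⟩ : ∃ Q, Q = (S \ J).erase e := ⟨_, rfl⟩
  obtain ⟨B, hBd⟩ : ∃ B, B = S \ J := ⟨_, rfl⟩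
  have hQl : Hl r S f Q := by rw [hQd]; exact (hJ.move h hS he her).1
  have hSQ : S \ Q = insert e J := by rw [hQd]; exact (hJ.move h hS he her).2
  have hQB : Q = B.erase e := by rw [hQd, hBd]
  have heB : e ∈ B := by rw [hBd]; exact he
  have hBQ : B = insert e Q := by rw [hQB, insert_erase heB]
  have heQ : e ∉ Q := by rw [hQB]; exact notMem_erase e B
  have hBc : B.card = f := by rw [hBd]; exact hJ.co_card hS
  have hBr : r B = f := by rw [hBd]; exact hJ.co
  have hBi : r B = B.card := by rw [hBc, hBr]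
  have hBS : B ⊆ S := by rw [hBd]; exact sdiff_subset
  have hQ1 : Sn r Q K1 := by rw [hQd]; exact (hloc.a e he hloc.e).2.1
  have hQ2 : ¬ Sn r Q K2 := by rw [hQd]; exact hb
  -- the mirror image
  have hmir : Loc r S f K K2 K1 Q e := by
    refine loc c.symm hQl hQ1 (by rw [hSQ]; exact mem_insert_self e J) ?_ ?_
    · rw [← hBQ]; exact hBr
    · rw [hSQ, erase_insert he'.2]; exact hJ1
  obtain ⟨JH, hJH⟩ : ∃ X : Finset α, X = J.filter fun z => r (insert z K) = r K := ⟨_, rfl⟩
  obtain ⟨JO, hJO⟩ : ∃ X : Finset α, X = J.filter fun z => r (insert z K) ≠ r K := ⟨_, rfl⟩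
  obtain ⟨BO, hBO⟩ : ∃ X : Finset α, X = B.filter fun z => r (insert z K) ≠ r K := ⟨_, rfl⟩
  obtain ⟨L, hL⟩ : ∃ X : Finset α, X = B.filter fun z => r (insert z J) = r J := ⟨_, rfl⟩
  obtain ⟨L0, hL0⟩ : ∃ X : Finset α, X = B.filter fun z => r (insert z K) = r K ∧ r (insert z JH) = r JH := ⟨_, rfl⟩
  have hJHJ : JH ⊆ J := by rw [hJH]; exact filter_subset _ _
  have hJOJ : JO ⊆ J := by rw [hJO]; exact filter_subset _ _
  have hBOB : BO ⊆ B := by rw [hBO]; exact filter_subset _ _
  have hL0B : L0 ⊆ B := by rw [hL0]; exact filter_subset _ _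
  have hJi : r J = J.card := hJ.ind
  have hJd : J \ JO = JH := by
    rw [hJO, hJH]
    ext z
    simp only [mem_sdiff, mem_filter]
    tauto
  have heBO : e ∈ BO := by rw [hBO, mem_filter]; exact ⟨heB, hloc.e⟩
  have hBO2 : 2 ≤ BO.card := by rw [hBO, hBd]; exact hloc.ff
  have hEE : L.card + BO.card ≤ r (L ∪ K2) + 1 := by rw [hBO, hL, hBd]; exact hloc.ee
  -- `K2` is spanned by `JH`
  have hK2H : Sn r JH K2 := by
    have t1 := hmir.b
    rw [hSQ, filter_insert, if_neg hloc.e, ← hJH] at t1
    exact t1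
  -- `JO` is not empty
  obtain ⟨j0, hj0⟩ : JO.Nonempty := by
    have t1 := hmir.ff
    rw [hSQ, filter_insert, if_pos hloc.e, ← hJO] at t1
    have t2 := card_insert_le e JO
    rw [← card_pos]
    omega
  -- the free exchange
  have hfree : ∀ j ∈ JO, ∀ d ∈ BO, ∃ J', J' = insert d (J.erase j) ∧ S \ J' = insert j (B.erase d) ∧
      Hl r S f J' ∧ Loc r S f K K1 K2 J' j := by
    intro j hj d hd
    rw [hJO, mem_filter] at hj
    rw [hBO, mem_filter, hBd] at hd
    have hdK := hd.2
    have hd' := mem_sdiff.1 hd.1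
    obtain ⟨a1, a2, a3⟩ := hloc.a d hd.1 hd.2
    obtain ⟨m1, m2⟩ := hJ.move h hS hd.1 a1
    -- the mirror image at `d`
    have hm : Loc r S f K K2 K1 ((S \ J).erase d) d := by
      refine loc c.symm m1 a2 (by rw [m2]; exact mem_insert_self d J) ?_ ?_
      · rw [insert_erase hd.1]; exact hJ.co
      · rw [m2, erase_insert hd'.2]; exact hJ1
    have hjd : j ≠ d := by
      rintro rfl
      exact hd'.2 hj.1
    have hj' : j ∈ S \ ((S \ J).erase d) := by rw [m2]; exact mem_insert_of_mem hj.1
    obtain ⟨b1, b2, b3⟩ := hm.a j hj' hj.2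
    obtain ⟨n1, n2⟩ := m1.move h hS hj' b1
    have e1 : (S \ ((S \ J).erase d)).erase j = insert d (J.erase j) := by
      rw [m2, erase_insert_of_ne hjd.symm]
    rw [e1] at n1 n2 b2 b3
    refine ⟨insert d (J.erase j), rfl, by rw [n2, hBd], n1, ?_⟩
    have hjB : j ∉ (S \ J).erase d := fun hc => (mem_sdiff.1 (mem_of_mem_erase hc)).2 hj.1
    refine loc c n1 b2 (by rw [n2]; exact mem_insert_self j _) ?_ ?_
    · rw [insert_comm, insert_erase hj.1]; exact a1
    · rw [n2, erase_insert hjB]; exact a3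
  -- `K2` is spanned by `L0 ∪ BO`
  have hBd2 : ∀ z ∈ B, z ∉ BO → r (insert z K) = r K := by
    intro z hz hz'
    by_contra hc
    exact hz' (by rw [hBO, mem_filter]; exact ⟨hz, hc⟩)
  have hK2L : Sn r (L0 ∪ BO) K2 := by
    intro k hk
    have hkey : ∀ b ∈ B \ (L0 ∪ BO), r (insert k (B.erase b)) = r (B.erase b) := by
      intro b hb'
      obtain ⟨hbB, hb1⟩ := mem_sdiff.1 hb'
      rw [mem_union, not_or] at hb1
      have hbK := hBd2 b hbB hb1.2
      have hbJH : r (insert b JH) ≠ r JH := by
        intro hc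
        exact hb1.1 (by rw [hL0, mem_filter]; exact ⟨hbB, hbK, hc⟩)
      by_cases hbJ : r (insert b J) = r J
      · -- `b` is spanned by `J` but not by `JH`
        obtain ⟨j, hj, hbj⟩ : ∃ j ∈ JO, r (insert b (J.erase j)) ≠ r (J.erase j) := by
          by_contra hcon
          push Not at hcon
          have t1 := inter' h hJi hJOJ hbJ hcon
          rw [hJd] at t1
          exact hbJH t1
        have hjJ := hJOJ hj
        have hjK : r (insert j K) ≠ r K := by
          rw [hJO, mem_filter] at hj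
          exact hj.2
        have hall : ∀ d ∈ BO, Sn r ((insert j (B.erase d)).erase b) K2 := by
          intro d hd
          obtain ⟨J', e1, e2, e3, e4⟩ := hfree j hj d hd
          have hd2 := hBOB hd
          have hdJ : r (insert d J) = f := by
            have t1 := hd
            rw [hBO, mem_filter, hBd] at t1
            exact (hloc.a d t1.1 t1.2).1
          have hbd : b ≠ d := by
            rintro rfl
            exact hb1.2 hd
          have hbJ' : r (insert b J') = f := by
            apply full_of_ne h e3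
            intro hc
            rw [e1] at hc
            have t1 := exch h hbj hc
            -- `d` would be spanned by `J`
            have t2 := h.mono_insert t1 (insert_subset_insert b (erase_subset j J))
            have t3 := h.mono (insert d J) (insert d (insert b J)) (insert_subset_insert _ (subset_insert _ _))
            have t4 := hJ.rk
            omega
          have hbS : b ∈ S \ J' := by
            rw [e2]
            exact mem_insert_of_mem (mem_erase.2 ⟨hbd, hbB⟩)
          have t5 := e4.d b hbS hbK hbJ'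
          rwa [e2] at t5
        have hbj' : b ≠ j := by
          rintro rfl
          exact hjK hbK
        by_cases hjb : r (insert j (B.erase b)) = r (B.erase b)
        · -- `j` is spanned by `B - b`
          have t1 := hall e heBO k hk
          have t2 : (insert j (B.erase e)).erase b ⊆ insert j (B.erase b) := by
            intro z hz
            simp only [mem_erase, mem_insert] at hz ⊢
            tauto
          have t3 := cl_mono h t2 t1
          have t4 := h.mono (insert k (B.erase b)) (insert k (insert j (B.erase b)))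
            (insert_subset_insert _ (subset_insert _ _))
          have t5 := h.mono (B.erase b) (insert k (B.erase b)) (subset_insert _ _)
          omega
        · -- `B'' = B - b + j` is a basis
          have hjBb : j ∉ B.erase b := by
            intro hc
            rw [insert_eq_of_mem hc] at hjb
            exact hjb rfl
          obtain ⟨B2, hB2⟩ : ∃ X, X = insert j (B.erase b) := ⟨_, rfl⟩
          have i1 : r (B.erase b) = (B.erase b).card := ind_sub h hBi (erase_subset _ _)
          have i2 : r B2 = B2.card := by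
            rw [hB2, rk_ins_ne h hjb, card_insert_of_notMem hjBb, i1]
          have hBOB2 : BO ⊆ B2 := by
            intro z hz
            rw [hB2]
            refine mem_insert_of_mem (mem_erase.2 ⟨?_, hBOB hz⟩)
            rintro rfl
            exact hb1.2 hz
          have hq : ∀ q ∈ BO, r (insert k (B2.erase q)) = r (B2.erase q) := by
            intro q hq
            have t1 := hall q hq k hk
            have hqj : q ≠ j := by
              rintro rfl
              exact hjBb (mem_erase.2 ⟨fun hc => hb1.2 (hc ▸ hq), hBOB hq⟩)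
            have t2 : (insert j (B.erase q)).erase b = B2.erase q := by
              rw [hB2]
              ext z
              simp only [mem_erase, mem_insert]
              constructor
              · rintro ⟨z1, rfl | ⟨z2, z3⟩⟩
                · exact ⟨hqj.symm, Or.inl rfl⟩
                · exact ⟨z2, Or.inr ⟨z1, z3⟩⟩
              · rintro ⟨z1, rfl | ⟨z2, z3⟩⟩
                · exact ⟨hbj'.symm, Or.inl rfl⟩
                · exact ⟨z2, Or.inr ⟨z1, z3⟩⟩
            rwa [t2] at t1
          have hkB2 : r (insert k B2) = r B2 := cl_mono h (erase_subset e B2) (hq e heBO)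
          have t3 := inter' h i2 hBOB2 hkB2 hq
          -- `B2 \ BO` is `BH - b` and `j`
          obtain ⟨X, hX⟩ : ∃ X, X = (B.erase b) \ BO := ⟨_, rfl⟩
          have hXK : ∀ z ∈ X, r (insert z K) = r K := by
            intro z hz
            rw [hX, mem_sdiff, mem_erase] at hz
            exact hBd2 z hz.1.2 hz.2
          have hB2X : B2 \ BO = insert j X := by
            rw [hB2, hX]
            ext z
            simp only [mem_sdiff, mem_erase, mem_insert]
            constructor
            · rintro ⟨rfl | z1, z2⟩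
              · exact Or.inl rfl
              · exact Or.inr ⟨z1, z2⟩
            · rintro (rfl | ⟨z1, z2⟩)
              · refine ⟨Or.inl rfl, fun hc => hjBb (mem_erase.2 ⟨hbj'.symm, hBOB hc⟩)⟩
              · exact ⟨Or.inr z1, z2⟩
          rw [hB2X] at t3
          have hkX : r (insert k X) = r X := by
            by_contra hc
            have t4 := exch h hc t3
            -- `j` would be in the hyperplane
            have t5 : r (K ∪ X) = r K := rk_union_eq h hXK
            have hkK : k ∈ K := c.s2 hk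
            have t6 := h.mono_insert t4 (show insert k X ⊆ K ∪ X from
              insert_subset (mem_union_left _ hkK) subset_union_right)
            have t7 := h.mono (insert j K) (insert j (K ∪ X)) (insert_subset_insert _ subset_union_left)
            have t8 := h.mono K (insert j K) (subset_insert _ _)
            omega
          exact cl_mono h (by rw [hX]; exact sdiff_subset) hkX
      · have t1 : b ∈ S \ J := by rw [← hBd]; exact hbB
        have t2 := hloc.d b t1 hbK (full_of_ne h hJ hbJ) k hk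
        rwa [← hBd] at t2
    have t1 := inter' h hBi (W := B \ (L0 ∪ BO)) sdiff_subset (c.full hBS hBr (c.s2 hk)) hkey
    rwa [Finset.sdiff_sdiff_eq_self (union_subset hL0B hBOB)] at t1
  -- ranks
  have hL0L : L0 ⊆ L := by
    intro z hz
    rw [hL0, mem_filter] at hz
    rw [hL, mem_filter]
    exact ⟨hz.1, cl_mono h hJHJ hz.2.2⟩
  have r1 : r (L ∪ K2) ≤ r (L0 ∪ K2) + (L \ L0).card := by
    have t1 := h.submod (L0 ∪ K2) (L \ L0)
    have t2 := h.le_card (L \ L0)
    have t3 := h.mono (L ∪ K2) (L0 ∪ K2 ∪ L \ L0) (by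
      intro z hz
      simp only [mem_union, mem_sdiff] at hz ⊢
      tauto)
    omega
  have r2 := card_sdiff_add_card_eq_card hL0L
  have hLB : L ⊆ B := by rw [hL]; exact filter_subset _ _
  -- two elements of `BO`
  obtain ⟨d, hd, hde⟩ : ∃ d ∈ BO, d ≠ e := by
    by_contra hcon
    push Not at hcon
    have t1 : BO ⊆ {e} := fun z hz => mem_singleton.2 (hcon z hz)
    have t2 := card_le_card t1
    rw [card_singleton] at t2
    omega
  obtain ⟨J', e1, e2, e3, e4⟩ := hfree j0 hj0 e heBO
  have hdJ' : r (insert d J') = f := by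
    have t1 : d ∈ S \ J' := by
      rw [e2]
      exact mem_insert_of_mem (mem_erase.2 ⟨hde, hBOB hd⟩)
    rw [hBO, mem_filter] at hd
    exact (e4.a d t1 hd.2).1
  have hj0J := hJOJ hj0
  have hj0H : JH ⊆ J.erase j0 := by
    intro z hz
    refine mem_erase.2 ⟨?_, hJHJ hz⟩
    rintro rfl
    rw [hJO, mem_filter] at hj0
    rw [hJH, mem_filter] at hz
    exact hj0.2 hz.2
  have hdJ : d ∉ J := by
    have t1 := hBOB hd
    rw [hBd] at t1
    exact (mem_sdiff.1 t1).2
  have r3 : r (insert d (insert e JH)) = JH.card + 2 := by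
    have i1 : r (insert d J') = (insert d J').card := by
      have t1 := e3.card
      have t2 := h.le_card (insert d J')
      have t3 := card_insert_le d J'
      omega
    have t4 : insert d (insert e JH) ⊆ insert d J' := by
      rw [e1]
      exact insert_subset_insert _ (insert_subset_insert _ hj0H)
    have t5 := ind_sub h i1 t4
    have t6 : e ∉ JH := fun hc => he'.2 (hJHJ hc)
    have t7 : d ∉ insert e JH := by
      rw [mem_insert, not_or]
      exact ⟨hde, fun hc => hdJ (hJHJ hc)⟩
    rw [t5, card_insert_of_notMem t7, card_insert_of_notMem t6]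
  have r4 : r (JH ∪ (K2 ∪ L0)) = r JH := by
    apply rk_union_eq h
    intro z hz
    rcases mem_union.1 hz with hz | hz
    · exact hK2H z hz
    · rw [hL0, mem_filter] at hz
      exact hz.2.2
  have r5 : r (L0 ∪ BO ∪ K2) = r (L0 ∪ BO) := sn_union h hK2L
  have r6 : r JH = JH.card := ind_sub h hJi hJHJ
  have r7 := h.le_card (L0 ∪ BO)
  have r8 := card_union_le L0 BO
  have r9 := h.submod (JH ∪ (K2 ∪ L0)) (L0 ∪ BO ∪ K2)
  have r10 := h.mono (L0 ∪ K2) ((JH ∪ (K2 ∪ L0)) ∩ (L0 ∪ BO ∪ K2)) (by
    intro z hz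
    simp only [mem_union, mem_inter] at hz ⊢
    tauto)
  have r11 := h.mono (insert d (insert e JH)) (JH ∪ (K2 ∪ L0) ∪ (L0 ∪ BO ∪ K2)) (by
    intro z hz
    rcases mem_insert.1 hz with rfl | hz
    · exact mem_union_right _ (mem_union_left _ (mem_union_right _ hd))
    · rcases mem_insert.1 hz with rfl | hz
      · exact mem_union_right _ (mem_union_left _ (mem_union_right _ heBO))
      · exact mem_union_left _ (mem_union_left _ hz))
  omega

/-- LEMMA D^1: two nonempty sets of non-loops which span a hyperplane (or everything) are adjacent. -/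
theorem lemD1 (h : RankFn r) (hS : Rig r S f)
    (hl1 : ∀ x ∈ K1, 0 < r {x}) (hl2 : ∀ x ∈ K2, 0 < r {x})
    (hn1 : K1.Nonempty) (hn2 : K2.Nonempty)
    (hsp : f ≤ r (K1 ∪ K2) + 1) (hrk : ∀ X ⊆ S ∪ (K1 ∪ K2), r X ≤ f) :
    ∃ J, Hl r S f J ∧ (∃ x ∈ K1, r (insert x J) = f) ∧ (∃ x ∈ K2, r (insert x J) = f) := by
  have h0 := hrk (K1 ∪ K2) subset_union_right
  rcases Nat.eq_or_lt_of_le h0 with h1 | h1
  · exact lemD h hS hl1 hl2 hn1 hn2 h1 hrk
  by_contra hcon
  have hno : ∀ J, Hl r S f J → Sn r J K1 ∨ Sn r J K2 := by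
    intro J hJ
    by_contra hc
    rw [not_or] at hc
    unfold Sn at hc
    push Not at hc
    obtain ⟨⟨x, hx, hx'⟩, ⟨y, hy, hy'⟩⟩ := hc
    exact hcon ⟨J, hJ, ⟨x, hx, full_of_ne h hJ hx'⟩, ⟨y, hy, full_of_ne h hJ hy'⟩⟩
  refine Cx.false (K := K1 ∪ K2) ⟨h, hS, rfl, by omega, hrk, hno⟩ hl1 hl2 hn1 hn2 ?_
  obtain ⟨x, hx⟩ := hn1
  have hxr : r (insert x S) = f := by
    have h1 := hrk (insert x S) (insert_subset (mem_union_right _ (mem_union_left _ hx)) subset_union_left)
    have h0 := hS.card
    rcases S.eq_empty_or_nonempty with he | hne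
    · rw [he, card_empty] at h0
      omega
    · have h2 := hS.lt S (Subset.refl S) hne
      have h3 := h.mono S (insert x S) (subset_insert x S)
      omega
  obtain ⟨J, hJ, -⟩ := hl_exists h hS (hl1 x hx) hxr
  exact ⟨J, hJ⟩

end Pool.Agent.EX54
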