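import Pool.Agent.R6.Tok
import Pool.Agent.EX84.NoCrit
import Pool.Agent.EX91.Fin

/-!
Systems of three blocks in which all simple dependent sets with at least two elements have at least `rank - j` elements (`CP j`), part
one: `CP j` is inherited by restrictions and contractions; ranks of completely non-adjacent sets.
-/

set_option autoImplicit false

namespace Pool.Agent.EX54

open Finset Pool.Agent.DT3 Pool.Agent.CF98 Pool.Agent.WT59 Pool.Agent.WG59 Pool.Agent.EX59 Pool.Agent.SA65 Pool.Agent.EX84
  Pool.Agent.EX91 Pool.Agent.R6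

variable {α : Type*} [DecidableEq α] {r : Finset α → ℕ} {E F M S K1 K2 K C X Z JF BF L J b b' : Finset α}
  {x y z s t : α} {f j : ℕ} {Q : Finset α → Prop}

/-- All dependent sets with at least two elements and without parallel elements have at least `rank - j` elements. -/
def CP (j : ℕ) (E : Finset α) (r : Finset α → ℕ) : Prop :=
  ∀ C ⊆ E, 2 ≤ C.card → (∀ x ∈ C, ∀ y ∈ C, x ≠ y → r {x, y} = 2) → r C < C.card → r E ≤ C.card + j

theorem exists_bas (hr : RankFn r) (X : Finset α) : ∃ B ⊆ X, r B = B.card ∧ r B = r X := by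
  induction X using Finset.induction_on with
  | empty => exact ⟨∅, Subset.refl _, by rw [hr.empty, card_empty], rfl⟩
  | insert a X ha ih =>
    obtain ⟨B, hB, h1, h2⟩ := ih
    rcases hr.insert_eq a X with h | h
    · exact ⟨B, hB.trans (subset_insert a X), h1, by rw [h2, h]⟩
    · refine ⟨insert a B, insert_subset_insert a hB, ?_, ?_⟩
      · have h3 : r (insert a B) ≠ r B := by
          intro h4
          have := hr.mono_insert h4 hB
          omega
        rw [rk_ins_ne hr h3, h1, card_insert_of_notMem (fun h4 => ha (hB h4))]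
      · have h3 : r (insert a B) ≠ r B := by
          intro h4
          have := hr.mono_insert h4 hB
          omega
        rw [rk_ins_ne hr h3, h2, h]

/-- A pair of an element outside the span of a set and an element of a basis of the set. -/
theorem pair_two (hr : RankFn r) {B X : Finset α} (hB : B ⊆ X) (hi : r B = B.card) {c b : α}
    (hc : r (insert c X) ≠ r X) (hb : b ∈ B) : r {c, b} = 2 := by
  have h1 : r {b} = 1 := by
    rw [ind_sub hr hi (singleton_subset_iff.2 hb), card_singleton]
  have h2 : r (insert c {b}) ≠ r {b} := by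
    intro h3
    exact hc (hr.mono_insert h3 (singleton_subset_iff.2 (hB hb)))
  rw [rk_ins_ne hr h2, h1]

theorem her_cp (j : ℕ) : Her (CP (α := α) j) where
  res := by
    intro E r f X hE hX h C hC h2 hs hd
    have h1 := h C (hC.trans hX) h2 hs hd
    have h3 := hE.rk.mono X E hX
    omega
  con := by
    intro E r f X hE hX h C hC h2 hs hd
    have hr := hE.rk
    have ge : ∀ Y, r X ≤ r (Y ∪ X) := fun Y => hr.mono _ _ subset_union_right
    obtain ⟨B, hB, b1, b2⟩ := exists_bas hr X
    have hCE : C ⊆ E := hC.trans sdiff_subset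
    have hdis : Disjoint C B := by
      rw [disjoint_left]
      intro a ha hb
      exact (mem_sdiff.1 (hC ha)).2 (hB hb)
    have two : ∀ x ∈ C, ∀ y ∈ C, x ≠ y → r ({x, y} ∪ X) = r X + 2 := by
      intro x hx y hy hxy
      have h3 : r ({x, y} ∪ X) - r X = 2 := hs x hx y hy hxy
      have g := ge {x, y}
      omega
    have non : ∀ x ∈ C, r (insert x X) ≠ r X := by
      intro x hx h3
      obtain ⟨y, hy, hyx⟩ := exists_mem_ne (show 1 < C.card by omega) x
      have h4 := two x hx y hy hyx.symm
      have h5 := hr.insert_le y (insert x X)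
      have e : ({x, y} : Finset α) ∪ X = insert y (insert x X) := by
        ext w
        simp only [mem_union, mem_insert, mem_singleton]
        tauto
      rw [e] at h4
      omega
    have hdd : r (C ∪ X) - r X < C.card := hd
    have e1 : r (C ∪ B) = r (C ∪ X) := by
      rw [union_comm C B, union_comm C X]
      exact rk_cup_congr hr hB b2 C
    have key := h (C ∪ B) (union_subset hCE (hB.trans hX)) (by
      rw [card_union_of_disjoint hdis]; omega) ?_ ?_
    · rw [card_union_of_disjoint hdis] at key
      show r (E \ X ∪ X) - r X ≤ C.card + j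
      rw [sdiff_union_of_subset hX]
      omega
    · intro x hx y hy hxy
      rcases mem_union.1 hx with hx | hx <;> rcases mem_union.1 hy with hy | hy
      · have h3 := two x hx y hy hxy
        have h4 := hr.submod {x, y} X
        have h5 := hr.le_card {x, y}
        have h6 : ({x, y} : Finset α).card ≤ 2 := card_le_two
        omega
      · exact pair_two hr hB b1 (non x hx) hy
      · rw [pair_comm]
        exact pair_two hr hB b1 (non y hy) hx
      · rw [ind_sub hr b1 (insert_subset hx (singleton_subset_iff.2 hy)), card_pair hxy]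
    · rw [card_union_of_disjoint hdis, e1]
      have := ge C
      omega

/-- A coloopless set of non-loops without parallel elements has large rank. -/
theorem cp_tok (hr : RankFn r) (hc : CP j E r) (hF : F ⊆ E) (hK : K ⊆ E) (hn : K.Nonempty)
    (hp : ∀ x ∈ K, ∀ y ∈ K, x ≠ y → r {x, y} = 2) (hl : ∀ x ∈ K, r (insert x F) ≠ r F)
    (hcl : ∀ x ∈ K, r (F ∪ K.erase x) = r (F ∪ K)) : r E ≤ r (F ∪ K) + 1 + j := by
  obtain ⟨B, hB, b1, b2⟩ := exists_bas hr F
  obtain ⟨x, hx⟩ := hn
  have hxF := rk_ins_ne hr (hl x hx)
  have h1 := hr.mono (insert x F) (F ∪ K) (insert_subset (mem_union_right _ hx) subset_union_left)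
  have h2 := rk_le_union_card hr F (K.erase x)
  rw [hcl x hx, card_erase_of_mem hx] at h2
  have h3 : 0 < K.card := card_pos.2 ⟨x, hx⟩
  obtain ⟨K', hK', hc'⟩ := Finset.exists_subset_card_eq (show r (F ∪ K) - r F + 1 ≤ K.card by omega)
  have hdis : Disjoint B K' := by
    rw [disjoint_left]
    intro a ha hb
    exact hl a (hK' hb) (by rw [insert_eq_of_mem (hB ha)])
  have hcard : (B ∪ K').card = r (F ∪ K) + 1 := by
    rw [card_union_of_disjoint hdis, hc']
    omega
  have h4 := hc (B ∪ K') (union_subset (hB.trans hF) (hK'.trans hK)) (by omega) ?_ ?_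
  · omega
  · intro u hu v hv huv
    rcases mem_union.1 hu with hu | hu <;> rcases mem_union.1 hv with hv | hv
    · rw [ind_sub hr b1 (insert_subset hu (singleton_subset_iff.2 hv)), card_pair huv]
    · rw [pair_comm]
      exact pair_two hr hB b1 (hl v (hK' hv)) hu
    · exact pair_two hr hB b1 (hl u (hK' hu)) hv
    · exact hp u (hK' hu) v (hK' hv) huv
  · have h5 := hr.mono (B ∪ K') (F ∪ K) (union_subset_union hB hK')
    omega

/-- A completely non-adjacent pair in a proper minor. -/
theorem cp_nap_lt (hE : Env r E f) (hc : CP 2 E r) (hN : NAP r E F M S K1 K2) (hM : r M < f) : False := by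
  have hr := hE.rk
  have h1 := nap_corank hr hN
  have h2 := cp_tok hr hc (hN.FM.trans hN.ME) (hN.K1M.trans hN.ME) hN.n1 hN.p1
    (fun x hx => hN.nl x (mem_union_left _ hx)) hN.c1
  have h3 := cp_tok hr hc (hN.FM.trans hN.ME) (hN.K2M.trans hN.ME) hN.n2 hN.p2
    (fun x hx => hN.nl x (mem_union_right _ hx)) hN.c2
  have h4 := hN.sk
  have h5 := tok_lt hr hN.n1 (fun x hx => hN.nl x (mem_union_left _ hx))
  have h6 := tok_lt hr hN.n2 (fun x hx => hN.nl x (mem_union_right _ hx))
  rw [hE.rank] at h2 h3
  omega

/-- A completely non-adjacent pair in the whole system. -/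
theorem cp_nap_eq (hE : Env r E f) (hc : CP 2 E r) (hN : NAP r E F E S K1 K2) : r F + 4 = f := by
  have hr := hE.rk
  have h1 := nap_corank hr hN
  have h2 := cp_tok hr hc (hN.FM.trans hN.ME) (hN.K1M.trans hN.ME) hN.n1 hN.p1
    (fun x hx => hN.nl x (mem_union_left _ hx)) hN.c1
  have h3 := cp_tok hr hc (hN.FM.trans hN.ME) (hN.K2M.trans hN.ME) hN.n2 hN.p2
    (fun x hx => hN.nl x (mem_union_right _ hx)) hN.c2
  have h4 := hN.sk
  have h5 := tok_lt hr hN.n1 (fun x hx => hN.nl x (mem_union_left _ hx))
  have h6 := tok_lt hr hN.n2 (fun x hx => hN.nl x (mem_union_right _ hx))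
  rw [hE.rank] at h1 h2 h3
  omega

end Pool.Agent.EX54
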