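import Pool.Agent.EX54.P2A
import Pool.Agent.R6.C
import Pool.Agent.R6.K2

/-!
Systems of three blocks in which all simple dependent sets with at least two elements have at least `rank - 2` elements, part two: in
rank at least seven all good bases are in one class.
-/

set_option autoImplicit false

namespace Pool.Agent.EX54

open Finset Pool.Agent.DT3 Pool.Agent.CF98 Pool.Agent.WT59 Pool.Agent.WG59 Pool.Agent.EX59 Pool.Agent.SA65 Pool.Agent.EX84
  Pool.Agent.EX91 Pool.Agent.R6

variable {α : Type*} [DecidableEq α] {r : Finset α → ℕ} {E F M S K1 K2 K C X Z JF BF L J b b' : Finset α}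
  {x y z s t : α} {f j : ℕ} {Q : Finset α → Prop}

/-- The standing data. -/
structure Cg (r : Finset α → ℕ) (E : Finset α) (f : ℕ) (Q : Finset α → Prop) (Z JF BF : Finset α) (x y : α) :
    Prop where
  env : Env r E f
  inv : ∀ A A', Stp r E f A A' → Q A → Q A'
  zs : Z ⊆ E
  zc : Z.card = f + 1
  rF : r (FF r r E Z) + 4 = f
  un : JF ∪ BF = FF r r E Z \ Z
  dj : Disjoint JF BF
  cj : JF.card = r (FF r r E Z)
  cb : BF.card = r (FF r r E Z)
  rj : r JF = r (FF r r E Z)
  rb : r BF = r (FF r r E Z)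
  hx : x ∈ TK r E f Q Z
  hy : y ∈ TK r E f (fun A => ¬ Q A) Z
  na : NA (cr r E Z) (SS r E Z) x y

theorem Cg.cr_eq (h : Cg r E f Q Z JF BF x y) (X : Finset α) :
    r (X ∪ FF r r E Z) = cr r E Z X + r (FF r r E Z) := by
  have h1 := h.env.rk.mono (FF r r E Z) (X ∪ FF r r E Z) subset_union_right
  unfold cr
  omega

theorem Cg.mem_SS (_ : Cg r E f Q Z JF BF x y) : z ∈ SS r E Z ↔ z ∈ E ∧ z ∉ Z ∧ z ∉ FF r r E Z := by
  unfold SS
  simp only [mem_sdiff, and_assoc]

theorem Cg.bFF (h : Cg r E f Q Z JF BF x y) : z ∈ FF r r E Z ∧ z ∉ Z ↔ z ∈ JF ∨ z ∈ BF := by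
  rw [← mem_union, h.un, mem_sdiff]

theorem Cg.rkB (h : Cg r E f Q Z JF BF x y) (X : Finset α) : r (BF ∪ X) = cr r E Z X + r (FF r r E Z) := by
  have h1 : BF ⊆ FF r r E Z := fun w hw => (h.bFF.2 (Or.inr hw)).1
  rw [rk_cup_congr h.env.rk h1 h.rb, union_comm, h.cr_eq]

theorem Cg.rkJ (h : Cg r E f Q Z JF BF x y) (X : Finset α) : r (JF ∪ X) = cr r E Z X + r (FF r r E Z) := by
  have h1 : JF ⊆ FF r r E Z := fun w hw => (h.bFF.2 (Or.inl hw)).1
  rw [rk_cup_congr h.env.rk h1 h.rj, union_comm, h.cr_eq]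

/-- The state given by a good triple. -/
theorem Cg.st (h : Cg r E f Q Z JF BF x y) (hz : z ∈ Z) (hg : Gd r E f (Z.erase z))
    (hJ : Rd (cr r E Z) (SS r E Z) z J) : Stp r E f (Z.erase z) (BF ∪ (SS r E Z \ J)) := by
  have hS7 := h.na.c7
  have hf := h.rF
  have hFE : FF r r E Z ⊆ E := FF_sub
  have hJS : ∀ w ∈ J, w ∈ SS r E Z := fun w hw => hJ.sub hw
  have d1 : Disjoint BF (SS r E Z \ J) := by
    rw [disjoint_left]
    intro w hw hw'
    exact (h.mem_SS.1 (mem_sdiff.1 hw').1).2.2 (h.bFF.2 (Or.inr hw)).1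
  have d2 : Disjoint JF (insert z J) := by
    rw [disjoint_left]
    intro w hw hw'
    have h1 := h.bFF.2 (Or.inl hw)
    rcases mem_insert.1 hw' with rfl | hw'
    · exact h1.2 hz
    · exact (h.mem_SS.1 (hJS w hw')).2.2 h1.1
  have hzJ : z ∉ J := fun h' => (h.mem_SS.1 (hJS z h')).2.1 hz
  have c1 := card_sdiff_add_card_eq_card hJ.sub
  have c2 := hJ.card
  have e1 : E \ (Z.erase z ∪ (BF ∪ (SS r E Z \ J))) = JF ∪ insert z J := by
    ext w
    rw [mem_sdiff, mem_union, mem_erase, mem_union, mem_sdiff, mem_union, mem_insert]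
    constructor
    · rintro ⟨u1, u2⟩
      rw [not_or, not_or] at u2
      by_cases u3 : w ∈ Z
      · by_cases u4 : w = z
        · exact Or.inr (Or.inl u4)
        · exact absurd ⟨u4, u3⟩ u2.1
      · by_cases u4 : w ∈ FF r r E Z
        · rcases h.bFF.1 ⟨u4, u3⟩ with u5 | u5
          · exact Or.inl u5
          · exact absurd u5 u2.2.1
        · by_cases u5 : w ∈ J
          · exact Or.inr (Or.inr u5)
          · exact absurd ⟨h.mem_SS.2 ⟨u1, u3, u4⟩, u5⟩ u2.2.2
    · rintro (u1 | rfl | u1)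
      · have u2 := h.bFF.2 (Or.inl u1)
        refine ⟨hFE u2.1, ?_⟩
        rintro (u3 | u3 | u3)
        · exact u2.2 u3.2
        · exact Finset.disjoint_left.1 h.dj u1 u3
        · exact (h.mem_SS.1 u3.1).2.2 u2.1
      · refine ⟨h.zs hz, ?_⟩
        rintro (u3 | u3 | u3)
        · exact u3.1 rfl
        · exact (h.bFF.2 (Or.inr u3)).2 hz
        · exact (h.mem_SS.1 u3.1).2.1 hz
      · have u2 := h.mem_SS.1 (hJS w u1)
        refine ⟨u2.1, ?_⟩
        rintro (u3 | u3 | u3)
        · exact u2.2.1 u3.2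
        · exact u2.2.2 (h.bFF.2 (Or.inr u3)).1
        · exact u3.2 u1
  refine gd_stp h.env ((erase_subset _ _).trans h.zs) hg.2.1 ?_ ?_ ⟨?_, ?_⟩ ⟨?_, ?_⟩
  · intro w hw
    rcases mem_union.1 hw with hw | hw
    · exact hFE (h.bFF.2 (Or.inr hw)).1
    · exact (h.mem_SS.1 (mem_sdiff.1 hw).1).1
  · rw [disjoint_left]
    intro w hw hw'
    have hw := mem_of_mem_erase hw
    rcases mem_union.1 hw' with hw' | hw'
    · exact (h.bFF.2 (Or.inr hw')).2 hw
    · exact (h.mem_SS.1 (mem_sdiff.1 hw').1).2.1 hw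
  · rw [card_union_of_disjoint d1, h.cb]
    omega
  · rw [h.rkB, hJ.co]
    omega
  · rw [e1, card_union_of_disjoint d2, card_insert_of_notMem hzJ, h.cj, hJ.card]
    omega
  · rw [e1, h.rkJ, hJ.r4]
    omega

theorem Cg.zl_erase (h : Cg r E f Q Z JF BF x y) (hs : s ∈ SS r E Z \ L) :
    (ZL r E Z BF L).erase s = BF ∪ (SS r E Z \ insert s L) := by
  have hs' := mem_sdiff.1 hs
  have hs'' := h.mem_SS.1 hs'.1
  ext w
  have t1 : w ∈ FF r r E Z ∧ w ∉ Z ↔ w ∈ JF ∨ w ∈ BF := h.bFF
  have t2 : w = s → w ∉ FF r r E Z := fun h' => h' ▸ hs''.2.2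
  unfold ZL
  simp only [mem_sdiff, mem_union, mem_erase, mem_insert, ne_eq]
  tauto

/-- `Z_L` contains good bases of both colours. -/
theorem Cg.zl (h : Cg r E f Q Z JF BF x y) (hL : Bi (cr r E Z) (SS r E Z) x y L) :
    ZL r E Z BF L ⊆ E ∧ (ZL r E Z BF L).card = f + 1 ∧ (∃ b, Gd r E f b ∧ b ⊆ ZL r E Z BF L ∧ Q b) ∧
      ∃ b, Gd r E f b ∧ b ⊆ ZL r E Z BF L ∧ ¬ Q b := by
  have hFE : FF r r E Z ⊆ E := FF_sub
  obtain ⟨s, hs, hR⟩ := hL.red
  obtain ⟨t, ht, hB⟩ := hL.blue
  have hx := mem_TK.1 h.hx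
  have hy := mem_TK.1 h.hy
  have h1 := h.st hx.1 hx.2.1 hR
  have h2 := h.st hy.1 hy.2.1 hB
  rw [← h.zl_erase hs] at h1
  rw [← h.zl_erase ht] at h2
  refine ⟨?_, ?_, ⟨_, stp_right h.env h1, erase_subset _ _, h.inv _ _ h1 hx.2.2⟩,
    ⟨_, stp_right h.env h2, erase_subset _ _, fun h3 => hy.2.2 (h.inv _ _ (stp_symm h2) h3)⟩⟩
  · intro w hw
    rcases mem_union.1 hw with hw | hw
    · exact hFE (h.bFF.2 (Or.inr hw)).1
    · exact (h.mem_SS.1 (mem_sdiff.1 hw).1).1
  · have d1 : Disjoint BF (SS r E Z \ L) := by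
      rw [disjoint_left]
      intro w hw hw'
      exact (h.mem_SS.1 (mem_sdiff.1 hw').1).2.2 (h.bFF.2 (Or.inr hw)).1
    have c1 := card_sdiff_add_card_eq_card hL.sub
    have c2 := hL.card
    have c3 := h.na.c7
    have c4 := h.rF
    unfold ZL
    rw [card_union_of_disjoint d1, h.cb]
    omega

/-- Sets without parallel elements whose rank is at most `f - 4` are independent. -/
theorem cp_small (hr : RankFn r) (hc : CP 2 E r) (hE : r E = f) {g : ℕ} (hg : g + 4 = f) (hg1 : 1 ≤ g) (hX : X ⊆ E)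
    (hs : ∀ u ∈ X, ∀ v ∈ X, u ≠ v → r {u, v} = 2) (hX2 : r X ≤ g) : X.card ≤ g := by
  by_contra hlt
  obtain ⟨Y, hY, hYc⟩ := Finset.exists_subset_card_eq (show g + 1 ≤ X.card by omega)
  have h1 := hr.mono Y X hY
  have h2 := hc Y (hY.trans hX) (by omega) (fun u hu v hv => hs u (hY hu) v (hY hv)) (by omega)
  omega

/-- `Z` has no parallel elements. -/
theorem z_simple (hr : RankFn r) (hN : NAP r E F E S (TK r E f Q Z) (TK r E f (fun A => ¬ Q A) Z)) {u v : α}
    (hu : u ∈ Z) (hv : v ∈ Z) (huv : u ≠ v) : r {u, v} = 2 := by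
  have h1 := two_tok hN.n1 (fun x hx => hN.nl x (mem_union_left _ hx)) hN.c1
  have h2 := two_tok hN.n2 (fun x hx => hN.nl x (mem_union_right _ hx)) hN.c2
  have h3 : Disjoint (TK r E f Q Z) (TK r E f (fun A => ¬ Q A) Z) := by
    rw [disjoint_left]
    intro w hw hw'
    exact (mem_TK.1 hw').2.2 (mem_TK.1 hw).2.2
  obtain ⟨w, hw, hwX⟩ : ∃ w ∈ TK r E f Q Z ∪ TK r E f (fun A => ¬ Q A) Z, w ∉ ({u, v} : Finset α) := by
    by_contra hcon
    push Not at hcon
    have h4 := card_le_card (show TK r E f Q Z ∪ TK r E f (fun A => ¬ Q A) Z ⊆ {u, v} from hcon)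
    rw [card_union_of_disjoint h3] at h4
    have h5 : ({u, v} : Finset α).card ≤ 2 := card_le_two
    omega
  have hg : Gd r E f (Z.erase w) := by
    rcases mem_union.1 hw with hw | hw
    · exact (mem_TK.1 hw).2.1
    · exact (mem_TK.1 hw).2.1
  have h4 := ind_sub hr (X := {u, v}) (Y := Z.erase w) (by rw [hg.2.1.1, hg.2.1.2]) (by
    intro a ha
    refine mem_erase.2 ⟨fun h' => hwX (h' ▸ ha), ?_⟩
    rw [mem_insert, mem_singleton] at ha
    rcases ha with rfl | rfl
    · exact hu
    · exact hv)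
  rw [h4, card_pair huv]

/-- There is no configuration in rank at least seven. -/
theorem Cg.false (h : Cg r E f Q Z JF BF x y) (hs : Strict r E) (hc : CP 2 E r) (hf : 7 ≤ f)
    (hN : NAP r E (FF r r E Z) E ((E \ Z) \ FF r r E Z) (TK r E f Q Z) (TK r E f (fun A => ¬ Q A) Z))
    (hL : Bi (cr r E Z) (SS r E Z) x y L) : False := by
  have hr := h.env.rk
  have hrE := h.env.rank
  have hF4 := h.rF
  have hFE : FF r r E Z ⊆ E := FF_sub
  obtain ⟨l1, l2, ⟨b, gb, hb, qb⟩, ⟨b', gb', hb', qb'⟩⟩ := h.zl hL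
  have hN' := napZ h.env h.inv l1 l2 gb hb gb' hb' qb qb'
  have hG4 := cp_nap_eq h.env hc hN'
  have hok : Ok r r E (ZL r E Z BF L) := ok_sub (gd_ok h.env gb) hb
  have hGt : Ti r r (ZL r E Z BF L) (FF r r E (ZL r E Z BF L)) := FF_ti hr hr hok
  unfold Ti at hGt
  set G : Finset α := FF r r E (ZL r E Z BF L) with hG
  set F : Finset α := FF r r E Z with hF
  have hGE : G ⊆ E := FF_sub
  have hGF : r G = r F := by omega
  have small : ∀ X ⊆ E, (∀ u ∈ X, ∀ v ∈ X, u ≠ v → r {u, v} = 2) → r X ≤ r F → X.card ≤ r F :=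
    fun X hX h1 h2 => cp_small hr hc hrE hF4 (by omega) hX h1 h2
  -- the part in `Z`
  have s1 : ∀ u ∈ G ∩ Z, ∀ v ∈ G ∩ Z, u ≠ v → r {u, v} = 2 := fun u hu v hv huv =>
    z_simple hr hN (mem_inter.1 hu).2 (mem_inter.1 hv).2 huv
  have g1 : (G ∩ Z).card ≤ r F := small _ (inter_subset_left.trans hGE) s1
    (by rw [← hGF]; exact hr.mono _ _ inter_subset_left)
  -- the part in the third block
  have hJLd : Disjoint JF L := by
    rw [disjoint_left]
    intro w hw hw'
    exact (h.mem_SS.1 (hL.sub hw')).2.2 (h.bFF.2 (Or.inl hw)).1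
  have hJL : r (JF ∪ L) = (JF ∪ L).card := by
    rw [h.rkJ, card_union_of_disjoint hJLd, h.cj, h.na.ind3 hL.sub (by rw [hL.card]; norm_num), add_comm]
  have g2 : (G ∩ (JF ∪ L)).card ≤ r F := by
    rw [← ind_sub hr hJL inter_subset_right, ← hGF]
    exact hr.mono _ _ inter_subset_left
  have hcov : G \ ZL r E Z BF L ⊆ (G ∩ Z) ∪ (G ∩ (JF ∪ L)) := by
    intro w hw
    have hw' := mem_sdiff.1 hw
    have h2 := hGE hw'.1
    have h4 := hw'.2
    unfold ZL at h4
    rw [mem_union, mem_sdiff, not_or] at h4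
    rw [mem_union, mem_inter, mem_inter, mem_union]
    by_cases u1 : w ∈ Z
    · exact Or.inl ⟨hw'.1, u1⟩
    · right
      refine ⟨hw'.1, ?_⟩
      by_cases u2 : w ∈ F
      · rcases h.bFF.1 ⟨u2, u1⟩ with u3 | u3
        · exact Or.inl u3
        · exact absurd u3 h4.1
      · right
        by_contra u3
        exact h4.2 ⟨h.mem_SS.2 ⟨h2, u1, u2⟩, u3⟩
  have g3 := card_le_card hcov
  have g4 := card_union_le (G ∩ Z) (G ∩ (JF ∪ L))
  -- no element of `JF`
  have g5 : ∀ p ∈ JF, p ∉ G := by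
    intro p hp hpG
    have hpF := h.bFF.2 (Or.inl hp)
    have hp1 : r {p} = 1 := by
      rw [ind_sub hr (Y := JF) (by rw [h.rj, h.cj]) (singleton_subset_iff.2 hp), card_singleton]
    -- an element of `BF` parallel to `p`
    obtain ⟨u, hu, hu2⟩ : ∃ u ∈ BF, r {p, u} = 1 := by
      by_contra hcon
      push Not at hcon
      have hpB : p ∉ BF := Finset.disjoint_left.1 h.dj hp
      have hBF : insert p BF ⊆ F := insert_subset hpF.1 (fun w hw => (h.bFF.2 (Or.inr hw)).1)
      have k0 : ∀ u ∈ BF, r {p, u} = 2 := by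
        intro u hu
        have k1 := hcon u hu
        have k2 := hr.mono {p} {p, u} (by simp)
        have k3 := hr.le_card {p, u}
        have k4 : ({p, u} : Finset α).card ≤ 2 := card_le_two
        omega
      have k5 := small (insert p BF) (hBF.trans hFE) (by
        intro u hu v hv huv
        rcases mem_insert.1 hu with hu' | hu' <;> rcases mem_insert.1 hv with hv' | hv'
        · exact absurd (hu'.trans hv'.symm) huv
        · rw [hu']; exact k0 v hv'
        · rw [hv', pair_comm]; exact k0 u hu'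
        · rw [ind_sub hr (Y := BF) (by rw [h.rb, h.cb]) (insert_subset hu' (singleton_subset_iff.2 hv')),
            card_pair huv]) (hr.mono _ _ hBF)
      have k6 := h.cb
      rw [card_insert_of_notMem hpB] at k5
      rw [← hF] at k6
      omega
    obtain ⟨v, hv, hv2⟩ : ∃ v ∈ G ∩ Z, r {p, v} = 1 := by
      by_contra hcon
      push Not at hcon
      have hpB : p ∉ G ∩ Z := fun h' => hpF.2 (mem_inter.1 h').2
      have hBF : insert p (G ∩ Z) ⊆ G := insert_subset hpG inter_subset_left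
      have k0 : ∀ u ∈ G ∩ Z, r {p, u} = 2 := by
        intro u hu
        have k1 := hcon u hu
        have k2 := hr.mono {p} {p, u} (by simp)
        have k3 := hr.le_card {p, u}
        have k4 : ({p, u} : Finset α).card ≤ 2 := card_le_two
        omega
      have k5 := small (insert p (G ∩ Z)) (hBF.trans hGE) (by
        intro u hu v hv huv
        rcases mem_insert.1 hu with hu' | hu' <;> rcases mem_insert.1 hv with hv' | hv'
        · exact absurd (hu'.trans hv'.symm) huv
        · rw [hu']; exact k0 v hv'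
        · rw [hv', pair_comm]; exact k0 u hu'
        · exact s1 u hu' v hv' huv) (by rw [← hGF]; exact hr.mono _ _ hBF)
      rw [card_insert_of_notMem hpB] at k5
      omega
    have hvZ := (mem_inter.1 hv).2
    have huF := h.bFF.2 (Or.inr hu)
    have d1 : p ≠ u := fun h' => Finset.disjoint_left.1 h.dj hp (h' ▸ hu)
    have d2 : p ≠ v := fun h' => hpF.2 (h' ▸ hvZ)
    have d3 : u ≠ v := fun h' => huF.2 (h' ▸ hvZ)
    have hcard : ({p, u, v} : Finset α).card = 3 := card_eq_three.2 ⟨p, u, v, d1, d2, d3, rfl⟩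
    have hrk : r {p, u, v} ≤ 1 := by
      have k1 := hr.submod {p, u} {p, v}
      have k2 := hr.mono {p} ({p, u} ∩ {p, v}) (by simp)
      have k3 := hr.mono {p, u, v} ({p, u} ∪ {p, v}) (by
        intro w hw
        simp only [mem_union, mem_insert, mem_singleton] at hw ⊢
        tauto)
      omega
    have hsub : ({p, u, v} : Finset α) ⊆ E := by
      intro w hw
      simp only [mem_insert, mem_singleton] at hw
      rcases hw with rfl | rfl | rfl
      · exact hFE hpF.1
      · exact hFE huF.1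
      · exact h.zs hvZ
    have h9 := hs {p, u, v} hsub ⟨p, by simp⟩ (by
      intro h'
      have := h.env.card
      rw [← h', hcard] at this
      omega)
    omega
  have g6 : G ∩ (JF ∪ L) ⊆ L := by
    intro w hw
    have hw' := mem_inter.1 hw
    rcases mem_union.1 hw'.2 with h' | h'
    · exact absurd hw'.1 (g5 w h')
    · exact h'
  have g7 := card_le_card g6
  have g8 := hL.card
  omega

/-- A completely non-adjacent pair over a flat of corank four. -/
theorem na_of_nap (hr : RankFn r) (hE4 : r (FF r r E Z) + 4 = r E)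
    (hN : NAP r E (FF r r E Z) E ((E \ Z) \ FF r r E Z) K1 K2) (hx : x ∈ K1) (hy : y ∈ K2) :
    NA (cr r E Z) (SS r E Z) x y := by
  set F : Finset α := FF r r E Z with hF
  obtain ⟨k1, k2⟩ := nap_rk1 hr hN (by omega)
  have hFE : F ⊆ E := FF_sub
  have ge : ∀ X : Finset α, r F ≤ r (X ∪ F) := fun X => hr.mono _ _ subset_union_right
  have hcr : ∀ X : Finset α, cr r E Z X = r (X ∪ F) - r F := fun X => rfl
  have hSS : SS r E Z = (E \ Z) \ F := rfl
  have hcard := hN.card
  have x1 := rk_ins_ne hr (hN.nl x (mem_union_left _ hx))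
  have y1 := rk_ins_ne hr (hN.nl y (mem_union_right _ hy))
  have hrep : ∀ (K : Finset α) (z w : α), z ∈ K → r (insert z F) = r F + 1 → r (F ∪ K) = r F + 1 → w ∈ K →
      ∀ J : Finset α, r (insert z (J ∪ F)) = r (J ∪ F) → r (insert w (J ∪ F)) = r (J ∪ F) := by
    intro K z w hz hzF hK hw J hJ
    have t1 : r (insert w (insert z F)) = r (insert z F) := by
      have t2 := hr.mono (insert w (insert z F)) (F ∪ K) (insert_subset (mem_union_right _ hw)
        (insert_subset (mem_union_right _ hz) subset_union_left))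
      have t3 := hr.mono (insert z F) (insert w (insert z F)) (subset_insert _ _)
      omega
    have t2 : r (insert w (insert z (J ∪ F))) = r (insert z (J ∪ F)) :=
      hr.mono_insert t1 (insert_subset_insert z subset_union_right)
    have t3 := hr.mono (insert w (J ∪ F)) (insert w (insert z (J ∪ F))) (insert_subset_insert w (subset_insert _ _))
    have t4 := hr.mono (J ∪ F) (insert w (J ∪ F)) (subset_insert _ _)
    omega
  refine ⟨contr_rank hr F, by rw [hSS]; omega, ?_, ?_, ?_, ?_, ?_, ?_⟩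
  · intro X hX
    rw [hcr]
    have h1 := hr.mono (insert x (insert y X) ∪ F) E (union_subset (insert_subset (hN.K1M hx)
      (insert_subset (hN.K2M hy) (hX.trans hN.SM))) hFE)
    omega
  · intro A hA hAc
    rw [hcr]
    have h1 := (nap_nocrit4 hr hN (by omega) hA).2.1 hAc
    omega
  · intro A hA hAc
    rw [hcr]
    have h1 := (nap_nocrit4 hr hN (by omega) hA).2.2.2 (by omega)
    omega
  · rw [hcr, ← insert_eq]
    omega
  · rw [hcr, ← insert_eq]
    omega
  · intro J hJ hJc hJr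
    rw [hcr] at hJr
    have h0 := (nap_nocrit4 hr hN (by omega) hJ).2.1 hJc
    have e1 : ∀ z, insert z J ∪ F = insert z (J ∪ F) := fun z => insert_union z J F
    rcases hN.na J hJ (by omega) (by
      have := ge (SS r E Z \ J)
      rw [hSS] at this hJr
      omega) with t | t
    · left
      rw [hcr, e1]
      have t1 := t x hx
      have t2 := hr.insert_le x (J ∪ F)
      have t3 := hr.mono (J ∪ F) (insert x (J ∪ F)) (subset_insert _ _)
      have t4 := hr.mono (insert x (J ∪ F)) E (insert_subset (hN.K1M hx) (union_subset (hJ.trans hN.SM) hFE))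
      omega
    · right
      rw [hcr, e1]
      have t1 := t y hy
      have t2 := hr.insert_le y (J ∪ F)
      have t3 := hr.mono (J ∪ F) (insert y (J ∪ F)) (subset_insert _ _)
      have t4 := hr.mono (insert y (J ∪ F)) E (insert_subset (hN.K2M hy) (union_subset (hJ.trans hN.SM) hFE))
      omega

end Pool.Agent.EX54
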